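import Pool.Agent.X91.VI.Geo

/-! # Quasiconvexity of volumetric-isochoric splits -/

set_option autoImplicit false

namespace Pool.Agent.X91.VI

open MeasureTheory Set Filter Topology
open Pool.Agent.W360.MQ (cab)
open Pool.Agent.TH937.ZC (QL gf QL_conv QL_det QL_add)
open Pool.Agent.W523.MQ.OM (T T_cont)
open Pool.Agent.Y273.VI (RCp Rp Tm Dat T_meas pt_bd pt_int pt_ql det_cab RCp_of)

variable {F₀ : Matrix (Fin 2) (Fin 2) ℝ} {Ω : Set (Fin 2 → ℝ)} {ϑ : (Fin 2 → ℝ) → (Fin 2 → ℝ)}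

/-- the positive cone -/
def Pos : Set (ℂ × ℂ) := {F | ‖F.2‖ < ‖F.1‖}

theorem Pos_open : IsOpen Pos := isOpen_lt (by fun_prop) (by fun_prop)

theorem meas_gen {w : ℂ × ℂ → ℝ} (hc : ContinuousOn w Pos) (F₀ : Matrix (Fin 2) (Fin 2) ℝ)
    (hpos : ∀ᵐ x ∂(volume.restrict Ω), T F₀ (fderiv ℝ ϑ x) ∈ Pos) :
    AEStronglyMeasurable (fun x => w (T F₀ (fderiv ℝ ϑ x))) (volume.restrict Ω) := by
  classical
  have hm := ContinuousOn.measurable_piecewise hc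
    (continuousOn_const (c := (0 : ℝ)) (s := Posᶜ)) Pos_open.measurableSet
  have hm2 := (hm.comp (T_meas F₀ ϑ)).aestronglyMeasurable (μ := volume.restrict Ω)
  refine hm2.congr ?_
  filter_upwards [hpos] with x hx
  simp only [Function.comp]
  rw [Set.piecewise_eq_of_mem _ _ _ hx]

theorem wxy_cont {hh f : ℝ → ℝ} (H : Hyp hh f) :
    ContinuousOn (fun F : ℂ × ℂ => wxy hh f ‖F.1‖ ‖F.2‖) Pos := by
  unfold wxy
  have hd : ∀ F ∈ Pos, 0 < ‖F.1‖ ^ 2 - ‖F.2‖ ^ 2 := fun F hF => del_pos (norm_nonneg _) hF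
  have c1 : ContinuousOn (fun F : ℂ × ℂ => ‖F.1‖ ^ 2 - ‖F.2‖ ^ 2) Pos :=
    Continuous.continuousOn (by fun_prop)
  have c2 : ContinuousOn (fun F : ℂ × ℂ => ‖F.2‖ / √(‖F.1‖ ^ 2 - ‖F.2‖ ^ 2)) Pos :=
    (Continuous.continuousOn (by fun_prop)).div (Continuous.continuousOn (by fun_prop))
      fun F hF => (Real.sqrt_pos.2 (hd F hF)).ne'
  exact (H.cont.comp c2 fun F _ => mem_Ici.2 (div_nonneg (norm_nonneg _)
    (Real.sqrt_nonneg _))).add (H.cont_f.comp c1 fun F hF => mem_Ioi.2 (hd F hF))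

/-- comparison -/
theorem compare {W l : (Fin 2 → ℝ) → ℝ} (hm : AEStronglyMeasurable W (volume.restrict Ω))
    (hfin : ∫⁻ x in Ω, ENNReal.ofReal (W x) ≠ ⊤) (hl : IntegrableOn l Ω)
    (hle : ∀ᵐ x ∂(volume.restrict Ω), l x ≤ W x) :
    IntegrableOn W Ω ∧ ∫ x in Ω, l x ≤ ∫ x in Ω, W x := by
  have hWp : Integrable (fun x => max (W x) 0) (volume.restrict Ω) := by
    refine ⟨hm.sup aestronglyMeasurable_const, ?_⟩
    have hp0 : 0 ≤ᵐ[volume.restrict Ω] fun x => max (W x) 0 :=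
      Eventually.of_forall fun x => le_max_right _ _
    rw [hasFiniteIntegral_iff_ofReal hp0]
    have e : ∀ x, ENNReal.ofReal (max (W x) 0) = ENNReal.ofReal (W x) := by
      intro x
      rcases le_total (W x) 0 with h1 | h1
      · rw [max_eq_right h1, ENNReal.ofReal_of_nonpos h1, ENNReal.ofReal_zero]
      · rw [max_eq_left h1]
    simp only [e]
    exact lt_top_iff_ne_top.2 hfin
  have hWi : IntegrableOn W Ω := by
    refine Integrable.mono' (hWp.add hl.abs) hm ?_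
    filter_upwards [hle] with x hx
    rw [Real.norm_eq_abs, Pi.add_apply]
    rcases le_total 0 (W x) with h1 | h1
    · rw [abs_of_nonneg h1]
      have := le_max_left (W x) 0
      have := abs_nonneg (l x)
      linarith
    · rw [abs_of_nonpos h1]
      have := le_max_right (W x) 0
      have := neg_abs_le (l x)
      linarith
  exact ⟨hWi, integral_mono_ae hl hWi hle⟩

/-- the coefficients of the special energy -/
noncomputable def ma (v : ℝ) : ℝ := 1 / v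

/-- the coefficients of the special energy -/
noncomputable def mb (v : ℝ) : ℝ := 2 * Real.log v

theorem gf_M (F : ℂ × ℂ) : gf ma mb F = Mg ‖F.1‖ ‖F.2‖ := rfl

theorem m_cv (s : ℝ) : ConvexOn ℝ (Ioc 0 s) (fun v => ma v * s + mb v) := by
  unfold ma mb
  have hi : interior (Ioc 0 s) = Ioo 0 s := interior_Ioc
  refine convexOn_of_hasDerivWithinAt2_nonneg (convex_Ioc 0 s)
    (f' := fun v => -(v ^ 2)⁻¹ * s + 2 * v⁻¹) (f'' := fun v => 2 * v / (v ^ 2) ^ 2 * s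
      + 2 * -(v ^ 2)⁻¹) ?_ ?_ ?_ ?_
  · intro v hv
    have hv0 : v ≠ 0 := hv.1.ne'
    exact ((((continuousAt_const.div continuousAt_id hv0).mul continuousAt_const).add
      ((Real.continuousAt_log hv0).const_smul (2 : ℝ)))).continuousWithinAt
  · intro v hv
    rw [hi] at hv ⊢
    have hv0 : v ≠ 0 := hv.1.ne'
    have h1 : HasDerivAt (fun v : ℝ => 1 / v) (-(v ^ 2)⁻¹) v := by
      simpa [one_div] using hasDerivAt_inv hv0
    exact ((h1.mul_const s).add ((Real.hasDerivAt_log hv0).const_mul 2)).hasDerivWithinAt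
  · intro v hv
    rw [hi] at hv ⊢
    have hv0 : v ≠ 0 := hv.1.ne'
    have h1 : HasDerivAt (fun v : ℝ => -(v ^ 2)⁻¹) (2 * v / (v ^ 2) ^ 2) v := by
      have h2 := ((hasDerivAt_pow 2 v).inv (pow_ne_zero 2 hv0)).neg
      refine h2.congr_deriv ?_
      simp only [Nat.cast_ofNat, Nat.add_one_sub_one, pow_one]
      ring
    exact ((h1.mul_const s).add ((hasDerivAt_inv hv0).const_mul 2)).hasDerivWithinAt
  · intro v hv
    rw [hi] at hv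
    have hv0 : 0 < v := hv.1
    have e : 2 * v / (v ^ 2) ^ 2 * s + 2 * -(v ^ 2)⁻¹ = 2 * (s - v) / v ^ 3 := by
      field_simp
      ring
    rw [e]
    have : 0 ≤ s - v := by linarith [hv.2]
    positivity

theorem m_dat {ρ : ℝ} (hρ : 0 < ρ) : Dat ma mb ρ (-(ρ ^ 2)⁻¹) (2 * ρ⁻¹) where
  cv := m_cv
  ρ0 := hρ
  dA := by
    unfold ma
    simpa [one_div] using hasDerivAt_inv hρ.ne'
  dB := (Real.hasDerivAt_log hρ.ne').const_mul 2
  ab := by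
    unfold ma
    rw [abs_of_pos (by positivity)]
    apply le_of_eq
    field_simp
    ring

/-- quasiconvexity of the special energy -/
theorem magic (h : Tm Ω ϑ) (hF : cab F₀ ∈ Pos)
    (hpos : ∀ᵐ x ∂(volume.restrict Ω), T F₀ (fderiv ℝ ϑ x) ∈ Pos)
    (hfin : ∫⁻ x in Ω, ENNReal.ofReal (gf ma mb (T F₀ (fderiv ℝ ϑ x))) ≠ ⊤) :
    IntegrableOn (fun x => gf ma mb (T F₀ (fderiv ℝ ϑ x))) Ω ∧
      gf ma mb (cab F₀) * (volume Ω).toReal ≤ ∫ x in Ω, gf ma mb (T F₀ (fderiv ℝ ϑ x)) := by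
  have hm := Pool.Agent.Y273.VI.meas_W m_cv F₀ hpos
  set v0 : ℝ := ‖(cab F₀).1‖ - ‖(cab F₀).2‖ with hv0
  set s0 : ℝ := ‖(cab F₀).1‖ + ‖(cab F₀).2‖ with hs0
  have hF' : ‖(cab F₀).2‖ < ‖(cab F₀).1‖ := hF
  have hv0p : 0 < v0 := by rw [hv0]; linarith
  set I : ℝ := ∫ x in Ω, gf ma mb (T F₀ (fderiv ℝ ϑ x)) with hI
  set V : ℝ := (volume Ω).toReal with hV
  set L : ℝ → ℝ := fun ρ => (ma ρ + -(ρ ^ 2)⁻¹ * (v0 - ρ)) * s0
    + (mb ρ + 2 * ρ⁻¹ * (v0 - ρ)) with hL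
  have key : ∀ ρ, 0 < ρ → ρ < v0 →
      IntegrableOn (fun x => gf ma mb (T F₀ (fderiv ℝ ϑ x))) Ω ∧ L ρ * V ≤ I :=
    fun ρ h0 h1 => (m_dat h0).main h h1 hpos hfin hm
  refine ⟨(key (v0 / 2) (by positivity) (by linarith)).1, ?_⟩
  have hLc : ContinuousAt L v0 := by
    simp only [hL]
    unfold ma mb
    have c1 : ContinuousAt (fun ρ : ℝ => 1 / ρ) v0 :=
      continuousAt_const.div continuousAt_id hv0p.ne'
    have c2 : ContinuousAt (fun ρ : ℝ => -(ρ ^ 2)⁻¹ * (v0 - ρ)) v0 :=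
      (((continuousAt_id.pow 2).inv₀ (pow_ne_zero 2 hv0p.ne')).neg).mul (by fun_prop)
    have c3 : ContinuousAt (fun ρ : ℝ => 2 * Real.log ρ) v0 :=
      (Real.continuousAt_log hv0p.ne').const_smul (2 : ℝ)
    have c4 : ContinuousAt (fun ρ : ℝ => 2 * ρ⁻¹ * (v0 - ρ)) v0 :=
      ((continuousAt_inv₀ hv0p.ne').const_smul (2 : ℝ)).mul (by fun_prop)
    exact ((c1.add c2).mul continuousAt_const).add (c3.add c4)
  have hL0 : L v0 = gf ma mb (cab F₀) := by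
    simp only [hL, sub_self, mul_zero, add_zero]
    rfl
  rw [← hL0]
  have ht : Tendsto (fun ρ => L ρ * V) (𝓝[<] v0) (𝓝 (L v0 * V)) :=
    (hLc.tendsto.mono_left nhdsWithin_le_nhds).mul_const V
  refine le_of_tendsto ht ?_
  filter_upwards [Ioo_mem_nhdsLT hv0p] with ρ hρ
  exact (key ρ hρ.1 hρ.2).2

theorem main_c {hh f : ℝ → ℝ} (H : Hyp hh f) (h : Tm Ω ϑ) (hF : cab F₀ ∈ Pos)
    (hpos : ∀ᵐ x ∂(volume.restrict Ω), T F₀ (fderiv ℝ ϑ x) ∈ Pos)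
    (hfin : ∫⁻ x in Ω, ENNReal.ofReal (wxy hh f ‖(T F₀ (fderiv ℝ ϑ x)).1‖
      ‖(T F₀ (fderiv ℝ ϑ x)).2‖) ≠ ⊤) :
    IntegrableOn (fun x => wxy hh f ‖(T F₀ (fderiv ℝ ϑ x)).1‖ ‖(T F₀ (fderiv ℝ ϑ x)).2‖) Ω ∧
      wxy hh f ‖(cab F₀).1‖ ‖(cab F₀).2‖ * (volume Ω).toReal
        ≤ ∫ x in Ω, wxy hh f ‖(T F₀ (fderiv ℝ ϑ x)).1‖ ‖(T F₀ (fderiv ℝ ϑ x)).2‖ := by
  have hF' : ‖(cab F₀).2‖ < ‖(cab F₀).1‖ := hF
  have hm := meas_gen (wxy_cont H) F₀ hpos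
  obtain ⟨α, γ, β, c, hα, hγ, hc, hs⟩ := support H (norm_nonneg (cab F₀).2) hF'
  set w0 : ℝ := wxy hh f ‖(cab F₀).1‖ ‖(cab F₀).2‖ with hw0
  set Pf : ℂ × ℂ → ℝ := fun F => (α * (‖F.1‖ + ‖F.2‖) + γ * ‖F.2‖)
    + β * (‖F.1‖ ^ 2 - ‖F.2‖ ^ 2) with hPf
  have hPc : Continuous Pf := by fun_prop
  have hPq : QL Pf (cab F₀) := by
    refine QL_add (by fun_prop) (by fun_prop) (QL_conv (by fun_prop) ?_ _) (QL_det β _)
    have n1 : ConvexOn ℝ univ (fun F : ℂ × ℂ => ‖F.1‖) :=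
      (convexOn_univ_norm).comp_linearMap (LinearMap.fst ℝ ℂ ℂ)
    have n2 : ConvexOn ℝ univ (fun F : ℂ × ℂ => ‖F.2‖) :=
      (convexOn_univ_norm).comp_linearMap (LinearMap.snd ℝ ℂ ℂ)
    exact ((n1.add n2).smul hα).add (n2.smul hγ)
  have hV0 : (0 : ℝ) ≤ (volume Ω).toReal := ENNReal.toReal_nonneg
  have hPi := pt_int hPc F₀ h
  have hPl := pt_ql hPc F₀ hPq h
  obtain ⟨C, hC⟩ := pt_bd hPc F₀ h
  have hcst : ∀ k : ℝ, IntegrableOn (fun _ : Fin 2 → ℝ => k) Ω := fun k =>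
    integrableOn_const h.fin.ne
  -- the pointwise inequality
  have hpt : ∀ᵐ x ∂(volume.restrict Ω), w0 + (Pf (T F₀ (fderiv ℝ ϑ x)) - Pf (cab F₀))
      + c * (gf ma mb (T F₀ (fderiv ℝ ϑ x)) - gf ma mb (cab F₀))
      ≤ wxy hh f ‖(T F₀ (fderiv ℝ ϑ x)).1‖ ‖(T F₀ (fderiv ℝ ϑ x)).2‖ := by
    filter_upwards [hpos] with x hx
    have := hs _ _ (norm_nonneg (T F₀ (fderiv ℝ ϑ x)).2) hx
    rw [gf_M, gf_M]
    simp only [hPf]
    linarith
  -- integrability of the lower bound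
  have hMi : IntegrableOn (fun x => c * (gf ma mb (T F₀ (fderiv ℝ ϑ x)) - gf ma mb (cab F₀))) Ω ∧
      0 ≤ ∫ x in Ω, c * (gf ma mb (T F₀ (fderiv ℝ ϑ x)) - gf ma mb (cab F₀)) := by
    rcases eq_or_lt_of_le hc with hc0 | hc0
    · rw [← hc0]
      simp
    · have hfin' : ∫⁻ x in Ω, ENNReal.ofReal (gf ma mb (T F₀ (fderiv ℝ ϑ x))) ≠ ⊤ := by
        set k : ℝ := |gf ma mb (cab F₀)| + (|w0| + C + |Pf (cab F₀)|) / c with hk
        have hC0 : 0 ≤ C := (norm_nonneg _).trans (hC 0)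
        have hk0 : 0 ≤ k := by positivity
        have hle : ∀ᵐ x ∂(volume.restrict Ω), ENNReal.ofReal (gf ma mb (T F₀ (fderiv ℝ ϑ x)))
            ≤ ENNReal.ofReal (1 / c) * ENNReal.ofReal (wxy hh f ‖(T F₀ (fderiv ℝ ϑ x)).1‖
              ‖(T F₀ (fderiv ℝ ϑ x)).2‖) + ENNReal.ofReal k := by
          filter_upwards [hpt] with x hx
          rw [← ENNReal.ofReal_mul (by positivity)]
          refine le_trans ?_ ENNReal.ofReal_add_le
          apply ENNReal.ofReal_le_ofReal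
          have h1 := hC x
          rw [Real.norm_eq_abs, abs_le] at h1
          have h2 := neg_abs_le w0
          have h3 := le_abs_self (Pf (cab F₀))
          have h4 := le_abs_self (gf ma mb (cab F₀))
          set M := gf ma mb (T F₀ (fderiv ℝ ϑ x))
          set WW := wxy hh f ‖(T F₀ (fderiv ℝ ϑ x)).1‖ ‖(T F₀ (fderiv ℝ ϑ x)).2‖
          have h5 : c * (M - gf ma mb (cab F₀)) ≤ WW + (|w0| + C + |Pf (cab F₀)|) := by
            linarith [h1.1]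
          have h6 : M - gf ma mb (cab F₀) ≤ (WW + (|w0| + C + |Pf (cab F₀)|)) / c := by
            rw [le_div_iff₀ hc0]
            linarith
          rw [add_div] at h6
          have h7 : 1 / c * WW = WW / c := by ring
          rw [h7, hk]
          linarith
        refine ne_top_of_le_ne_top ?_ (lintegral_mono_ae hle)
        rw [lintegral_add_right _ measurable_const, lintegral_const_mul' _ _ ENNReal.ofReal_ne_top,
          lintegral_const]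
        refine ENNReal.add_ne_top.2 ⟨ENNReal.mul_ne_top ENNReal.ofReal_ne_top hfin,
          ENNReal.mul_ne_top ENNReal.ofReal_ne_top ?_⟩
        rw [Measure.restrict_apply_univ]
        exact h.fin.ne
      obtain ⟨i1, i2⟩ := magic h hF hpos hfin'
      refine ⟨(i1.sub (hcst _)).const_mul c, ?_⟩
      rw [integral_const_mul, integral_sub i1 (hcst _), setIntegral_const]
      simp only [smul_eq_mul, Measure.real]
      apply mul_nonneg hc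
      linarith [mul_comm (gf ma mb (cab F₀)) (volume Ω).toReal]
  have i3 : IntegrableOn (fun x => Pf (T F₀ (fderiv ℝ ϑ x)) - Pf (cab F₀)) Ω :=
    hPi.sub (hcst _)
  have hl1 : IntegrableOn (fun x => w0 + (Pf (T F₀ (fderiv ℝ ϑ x)) - Pf (cab F₀))) Ω :=
    (hcst w0).add i3
  obtain ⟨r1, r2⟩ := compare hm hfin (hl1.add hMi.1) hpt
  refine ⟨r1, le_trans ?_ r2⟩
  have e1 : ∫ x in Ω, ((fun x => w0 + (Pf (T F₀ (fderiv ℝ ϑ x)) - Pf (cab F₀)))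
      + fun x => c * (gf ma mb (T F₀ (fderiv ℝ ϑ x)) - gf ma mb (cab F₀))) x
      = (∫ x in Ω, (w0 + (Pf (T F₀ (fderiv ℝ ϑ x)) - Pf (cab F₀))))
        + ∫ x in Ω, c * (gf ma mb (T F₀ (fderiv ℝ ϑ x)) - gf ma mb (cab F₀)) :=
    integral_add hl1 hMi.1
  rw [e1]
  have e2 : ∫ x in Ω, (w0 + (Pf (T F₀ (fderiv ℝ ϑ x)) - Pf (cab F₀)))
      = w0 * (volume Ω).toReal + ((∫ x in Ω, Pf (T F₀ (fderiv ℝ ϑ x)))
        - Pf (cab F₀) * (volume Ω).toReal) := by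
    rw [integral_add (hcst w0) i3, integral_sub hPi (hcst _), setIntegral_const,
      setIntegral_const]
    simp only [smul_eq_mul, Measure.real]
    ring
  rw [e2]
  linarith [hMi.2]

open scoped Matrix.Norms.L2Operator in
theorem main (h f : ℝ → ℝ) (W : Matrix (Fin 2) (Fin 2) ℝ → ℝ)
    (hW : ∀ A : Matrix (Fin 2) (Fin 2) ℝ, 0 < A.det → W A = h (‖A‖ ^ 2 / A.det) + f A.det)
    (hR : Rp W) (h0 : 0 < F₀.det) (ht : Tm Ω ϑ)
    (hpos : ∀ᵐ x ∂(volume.restrict Ω), 0 < (F₀ + LinearMap.toMatrix'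
      ((fderiv ℝ ϑ x : (Fin 2 → ℝ) →L[ℝ] (Fin 2 → ℝ)) :
        (Fin 2 → ℝ) →ₗ[ℝ] (Fin 2 → ℝ))).det)
    (hfin : ∫⁻ x in Ω, ENNReal.ofReal (W (F₀ + LinearMap.toMatrix'
      ((fderiv ℝ ϑ x : (Fin 2 → ℝ) →L[ℝ] (Fin 2 → ℝ)) :
        (Fin 2 → ℝ) →ₗ[ℝ] (Fin 2 → ℝ)))) ≠ ⊤) :
    IntegrableOn (fun x => W (F₀ + LinearMap.toMatrix'
      ((fderiv ℝ ϑ x : (Fin 2 → ℝ) →L[ℝ] (Fin 2 → ℝ)) :
        (Fin 2 → ℝ) →ₗ[ℝ] (Fin 2 → ℝ)))) Ω ∧
    W F₀ * (volume Ω).toReal ≤ ∫ x in Ω, W (F₀ + LinearMap.toMatrix'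
      ((fderiv ℝ ϑ x : (Fin 2 → ℝ) →L[ℝ] (Fin 2 → ℝ)) :
        (Fin 2 → ℝ) →ₗ[ℝ] (Fin 2 → ℝ))) := by
  set hh : ℝ → ℝ := fun ω => h (Tt (2 * ω) ^ 2) with hhh
  have hW' : ∀ A : Matrix (Fin 2) (Fin 2) ℝ, 0 < A.det →
      W A = wxy hh f ‖(cab A).1‖ ‖(cab A).2‖ := by
    intro A hA
    obtain ⟨e1, e2⟩ := Pool.Agent.W74.MQ.OPN.main A
    have hA' := (det_cab A).1 hA
    rw [hW A hA, e1, e2]
    unfold wxy
    simp only [hhh]
    rw [K_xy (norm_nonneg _) hA']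
  have hH : Hyp hh f := Hyp.of (RCp_of (w := fun F => wxy hh f ‖F.1‖ ‖F.2‖) hW' hR)
  have hpos' : ∀ᵐ x ∂(volume.restrict Ω), T F₀ (fderiv ℝ ϑ x) ∈ Pos := by
    filter_upwards [hpos] with x hx
    exact (det_cab _).1 hx
  have hev : (fun x => W (F₀ + LinearMap.toMatrix'
      ((fderiv ℝ ϑ x : (Fin 2 → ℝ) →L[ℝ] (Fin 2 → ℝ)) :
        (Fin 2 → ℝ) →ₗ[ℝ] (Fin 2 → ℝ)))) =ᵐ[volume.restrict Ω]
      fun x => wxy hh f ‖(T F₀ (fderiv ℝ ϑ x)).1‖ ‖(T F₀ (fderiv ℝ ϑ x)).2‖ := by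
    filter_upwards [hpos] with x hx
    exact hW' _ hx
  have hfin' : ∫⁻ x in Ω, ENNReal.ofReal (wxy hh f ‖(T F₀ (fderiv ℝ ϑ x)).1‖
      ‖(T F₀ (fderiv ℝ ϑ x)).2‖) ≠ ⊤ := by
    have e := lintegral_congr_ae (hev.fun_comp ENNReal.ofReal)
    simp only [Function.comp] at e
    rw [← e]
    exact hfin
  obtain ⟨h1, h2⟩ := main_c hH ht ((det_cab F₀).1 h0) hpos' hfin'
  refine ⟨h1.congr_fun_ae hev.symm, ?_⟩
  rw [integral_congr_ae hev, hW' F₀ h0]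
  exact h2

end Pool.Agent.X91.VI
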