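import Mathlib

/-! # Local supports and convexity -/

set_option autoImplicit false

namespace Pool.Agent.X91.VI

open Set Filter Topology

/-- an interior maximum of the difference to the chord and a parabola -/
theorem max_chord {g : ℝ → ℝ} {x y a b : ℝ} (hxy : x < y) (hg : ContinuousOn g (Icc x y))
    (ha : 0 < a) (hb : 0 < b) (hab : a + b = 1) (h : a * g x + b * g y < g (a * x + b * y)) :
    ∃ ε > 0, ∃ k, ∃ t ∈ Ioo x y, (∀ z ∈ Icc x y, g z ≤ g t + k * (z - t) - ε * (z - t) ^ 2) := by
  have hd : 0 < y - x := by linarith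
  set s : ℝ := a * x + b * y with hs
  have hb' : b = 1 - a := by linarith
  have ha1 : a < 1 := by linarith
  have hsx : x < s := by rw [hs, hb']; nlinarith
  have hsy : s < y := by rw [hs, hb']; nlinarith
  set σ : ℝ := (g y - g x) / (y - x) with hσ
  have hσ' : σ * (y - x) = g y - g x := by rw [hσ]; field_simp
  set D : ℝ := g s - (a * g x + b * g y) with hD
  have hD0 : 0 < D := by linarith
  set ε : ℝ := D / (2 * (y - x) ^ 2) with hε
  have hε0 : 0 < ε := by positivity
  have hεD : ε * (2 * (y - x) ^ 2) = D := by rw [hε]; field_simp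
  set G : ℝ → ℝ := fun t => g t - (g x + σ * (t - x)) - ε * ((t - x) * (y - t)) with hG
  have hGc : ContinuousOn G (Icc x y) := by
    have h1 : Continuous (fun t : ℝ => g x + σ * (t - x)) := by fun_prop
    have h2 : Continuous (fun t : ℝ => ε * ((t - x) * (y - t))) := by fun_prop
    exact (hg.sub h1.continuousOn).sub h2.continuousOn
  obtain ⟨t, ht, hmax⟩ := isCompact_Icc.exists_isMaxOn (nonempty_Icc.2 hxy.le) hGc
  have hGx : G x = 0 := by simp [hG]
  have hGy : G y = 0 := by
    simp only [hG, sub_self, mul_zero, sub_zero]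
    linarith
  have hGs : 0 < G s := by
    have e1 : g x + σ * (s - x) = a * g x + b * g y := by
      have : s - x = b * (y - x) := by rw [hs, hb']; ring
      rw [this, hb']
      linear_combination (1 - a) * hσ'
    have e2 : (s - x) * (y - s) ≤ (y - x) ^ 2 := by nlinarith
    have e3 : ε * ((s - x) * (y - s)) ≤ ε * (y - x) ^ 2 := mul_le_mul_of_nonneg_left e2 hε0.le
    simp only [hG]
    rw [e1]
    nlinarith
  have hGt : 0 < G t := hGs.trans_le (hmax (a := s) ⟨hsx.le, hsy.le⟩)
  have htx : x < t := by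
    rcases eq_or_lt_of_le ht.1 with h1 | h1
    · rw [← h1, hGx] at hGt
      exact absurd hGt (lt_irrefl _)
    · exact h1
  have hty : t < y := by
    rcases eq_or_lt_of_le ht.2 with h1 | h1
    · rw [h1, hGy] at hGt
      exact absurd hGt (lt_irrefl _)
    · exact h1
  refine ⟨ε, hε0, σ + ε * (y + x - 2 * t), t, ⟨htx, hty⟩, fun z hz => ?_⟩
  have h1 : G z ≤ G t := hmax hz
  simp only [hG] at h1
  nlinarith

/-- a continuous function with a local affine support from below at each interior point of an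
interval is convex -/
theorem conv_of_loc {S : Set ℝ} (hS : Convex ℝ S) {g : ℝ → ℝ} (hg : ContinuousOn g S)
    (h : ∀ x ∈ interior S, ∃ m r : ℝ, 0 < r ∧ ∀ z ∈ S, |z - x| < r → g x + m * (z - x) ≤ g z) :
    ConvexOn ℝ S g := by
  refine LinearOrder.convexOn_of_lt hS fun x hx y hy hxy a b ha hb hab => ?_
  simp only [smul_eq_mul]
  by_contra hlt
  rw [not_le] at hlt
  have hsub : Icc x y ⊆ S := hS.ordConnected.out hx hy
  obtain ⟨ε, hε, k, t, ht, hm⟩ := max_chord hxy (hg.mono hsub) ha hb hab hlt
  have hti : t ∈ interior S :=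
    interior_mono (Ioo_subset_Icc_self.trans hsub) (by rw [interior_Ioo]; exact ht)
  obtain ⟨m, r, hr, hsup⟩ := h t hti
  set η : ℝ := min (r / 2) (min (t - x) (y - t)) with hη
  have hη0 : 0 < η := lt_min (by positivity) (lt_min (by linarith [ht.1]) (by linarith [ht.2]))
  have h1 : η ≤ r / 2 := min_le_left _ _
  have h2 : η ≤ t - x := (min_le_right _ _).trans (min_le_left _ _)
  have h3 : η ≤ y - t := (min_le_right _ _).trans (min_le_right _ _)
  have m1 : t + η ∈ Icc x y := ⟨by linarith, by linarith⟩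
  have m2 : t - η ∈ Icc x y := ⟨by linarith, by linarith⟩
  have a1 := hm _ m1
  have a2 := hm _ m2
  have b1 := hsup _ (hsub m1) (by
    rw [add_sub_cancel_left, abs_of_pos hη0]; linarith)
  have b2 := hsup _ (hsub m2) (by
    rw [sub_sub_cancel_left, abs_neg, abs_of_pos hη0]; linarith)
  have e1 : t + η - t = η := by ring
  have e2 : t - η - t = -η := by ring
  rw [e1] at a1 b1
  rw [e2] at a2 b2
  have : 0 < ε * η ^ 2 := by positivity
  nlinarith

/-- a continuous function which is not convex is touched from above by an affine function -/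
theorem touch {S : Set ℝ} (hS : Convex ℝ S) {g : ℝ → ℝ} (hg : ContinuousOn g S)
    (h : ¬ ConvexOn ℝ S g) : ∃ x ∈ interior S, ∃ m r : ℝ, 0 < r ∧
      ∀ z, |z - x| < r → z ∈ S ∧ g z ≤ g x + m * (z - x) := by
  by_contra hne
  apply h
  refine LinearOrder.convexOn_of_lt hS fun x hx y hy hxy a b ha hb hab => ?_
  simp only [smul_eq_mul]
  by_contra hlt
  rw [not_le] at hlt
  have hsub : Icc x y ⊆ S := hS.ordConnected.out hx hy
  obtain ⟨ε, hε, k, t, ht, hm⟩ := max_chord hxy (hg.mono hsub) ha hb hab hlt
  have hti : t ∈ interior S :=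
    interior_mono (Ioo_subset_Icc_self.trans hsub) (by rw [interior_Ioo]; exact ht)
  apply hne
  refine ⟨t, hti, k, min (t - x) (y - t), lt_min (by linarith [ht.1]) (by linarith [ht.2]),
    fun z hz => ?_⟩
  rw [abs_lt] at hz
  have h2 : min (t - x) (y - t) ≤ t - x := min_le_left _ _
  have h3 : min (t - x) (y - t) ≤ y - t := min_le_right _ _
  have hz' : z ∈ Icc x y := ⟨by linarith [hz.1], by linarith [hz.2]⟩
  refine ⟨hsub hz', ?_⟩
  have := hm z hz'
  nlinarith [sq_nonneg (z - t)]

/-- subgradients at interior points -/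
theorem sub_int {S : Set ℝ} {g : ℝ → ℝ} (hg : ConvexOn ℝ S g) {x : ℝ} (hx : x ∈ interior S) :
    ∃ k, ∀ u ∈ S, g x + k * (u - x) ≤ g u := by
  refine ⟨derivWithin g (Ioi x) x, fun u hu => ?_⟩
  rcases lt_trichotomy u x with h | h | h
  · have h1 := hg.slope_le_leftDeriv_of_mem_interior hu hx h
    have h2 := hg.leftDeriv_le_rightDeriv_of_mem_interior hx
    have h3 := h1.trans h2
    rw [slope_def_field, div_le_iff₀ (by linarith)] at h3
    linarith
  · subst h
    simp
  · have h1 := hg.rightDeriv_le_slope_of_mem_interior hx hu h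
    rw [slope_def_field, le_div_iff₀ (by linarith)] at h1
    linarith

/-- closedness of convexity in a parameter -/
theorem closed_conv {S : Set ℝ} (u v : ℝ → ℝ) :
    IsClosed {a : ℝ | ConvexOn ℝ S (fun x => u x + a * v x)} := by
  by_cases hS : Convex ℝ S
  · have e : {a : ℝ | ConvexOn ℝ S (fun x => u x + a * v x)}
        = {a : ℝ | ∀ x ∈ S, ∀ y ∈ S, ∀ p q : ℝ, 0 ≤ p → 0 ≤ q → p + q = 1 →
          u (p * x + q * y) + a * v (p * x + q * y)
            ≤ p * (u x + a * v x) + q * (u y + a * v y)} := by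
      ext a
      constructor
      · rintro ⟨_, h⟩ x hx y hy p q hp hq hpq
        exact h hx hy hp hq hpq
      · intro h
        exact ⟨hS, fun x hx y hy p q hp hq hpq => h x hx y hy p q hp hq hpq⟩
    rw [e]
    simp only [setOf_forall]
    refine isClosed_iInter fun x => isClosed_iInter fun _ => isClosed_iInter fun y =>
      isClosed_iInter fun _ => isClosed_iInter fun p => isClosed_iInter fun q =>
      isClosed_iInter fun _ => isClosed_iInter fun _ => isClosed_iInter fun _ => ?_
    exact isClosed_le (by fun_prop) (by fun_prop)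
  · have e : {a : ℝ | ConvexOn ℝ S (fun x => u x + a * v x)} = ∅ := by
      ext a
      simp only [mem_setOf_eq, mem_empty_iff_false, iff_false]
      exact fun h => hS h.1
    rw [e]
    exact isClosed_empty

/-- three points -/
theorem mid {S : Set ℝ} {g : ℝ → ℝ} (hg : ConvexOn ℝ S g) {x y z : ℝ} (hx : x ∈ S) (hy : y ∈ S)
    (hz : z = (x + y) / 2) : 2 * g z ≤ g x + g y := by
  have h := hg.2 hx hy (by norm_num : (0 : ℝ) ≤ 1 / 2) (by norm_num : (0 : ℝ) ≤ 1 / 2)
    (by norm_num)
  simp only [smul_eq_mul] at h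
  have e : 1 / 2 * x + 1 / 2 * y = z := by rw [hz]; ring
  rw [e] at h
  linarith

end Pool.Agent.X91.VI
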