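import Pool.Agent.X91.VI.Conv

/-! # The two parts of a volumetric-isochoric split -/

set_option autoImplicit false

namespace Pool.Agent.X91.VI

open Set Filter Topology

/-- `hh` is the isochoric part as a function of `|F⁻| / √det`, `f` the volumetric part -/
structure Hyp (hh f : ℝ → ℝ) : Prop where
  even : ConvexOn ℝ univ (fun t => hh |t|)
  line : ∀ μ ∈ Icc (0 : ℝ) 2, ∀ l : ℝ, 0 < l →
    ConvexOn ℝ (Ici 0) (fun τ => hh (τ / √(1 + μ * τ)) + f (l * (1 + μ * τ)))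

/-- convexity of the volumetric part -/
def P (f : ℝ → ℝ) (a : ℝ) : Prop := ConvexOn ℝ (Ioi 0) (fun δ => f δ + a * Real.log δ)

/-- convexity of the isochoric part -/
def Q (hh : ℝ → ℝ) (a : ℝ) : Prop := ∀ μ ∈ Icc (0 : ℝ) 2,
  ConvexOn ℝ (Ici 0) (fun τ => hh (τ / √(1 + μ * τ)) + a * (-Real.log (1 + μ * τ)))

variable {hh f : ℝ → ℝ}

theorem Hyp.mono (H : Hyp hh f) {s t : ℝ} (hs : 0 ≤ s) (hst : s ≤ t) : hh s ≤ hh t := by
  have h1 := H.even.le_max_of_mem_Icc (mem_univ (-t)) (mem_univ t)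
    (z := s) ⟨by linarith, hst⟩
  simp only [abs_neg, max_self] at h1
  rwa [abs_of_nonneg hs, abs_of_nonneg (hs.trans hst)] at h1

theorem Hyp.cont_abs (H : Hyp hh f) : Continuous (fun t => hh |t|) :=
  continuousOn_univ.1 (H.even.continuousOn isOpen_univ)

theorem Hyp.cont (H : Hyp hh f) : ContinuousOn hh (Ici 0) := by
  refine H.cont_abs.continuousOn.congr fun t ht => ?_
  have ht' : (0 : ℝ) ≤ t := ht
  simp only [abs_of_nonneg ht']

theorem den_pos {μ τ : ℝ} (hμ : 0 ≤ μ) (hτ : 0 ≤ τ) : 0 < 1 + μ * τ := by positivity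

theorem arg_cont {μ : ℝ} (hμ : 0 ≤ μ) : ContinuousOn (fun τ : ℝ => τ / √(1 + μ * τ)) (Ici 0) := by
  refine continuousOn_id.div (Continuous.continuousOn (by fun_prop)) fun τ hτ => ?_
  exact (Real.sqrt_pos.2 (den_pos hμ hτ)).ne'

theorem Hyp.cont_arg (H : Hyp hh f) {μ : ℝ} (hμ : 0 ≤ μ) :
    ContinuousOn (fun τ : ℝ => hh (τ / √(1 + μ * τ))) (Ici 0) :=
  H.cont.comp (arg_cont hμ) fun _ hτ => mem_Ici.2 (div_nonneg hτ (Real.sqrt_nonneg _))

theorem Hyp.cont_f (H : Hyp hh f) : ContinuousOn f (Ioi 0) := by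
  intro δ hδ
  have hδ0 : (0 : ℝ) < δ := hδ
  have h1 := H.line 2 ⟨by norm_num, le_rfl⟩ (δ / 2) (by positivity)
  have h2 : ConvexOn ℝ (Ioi 0) (fun τ => hh (τ / √(1 + 2 * τ)) + f (δ / 2 * (1 + 2 * τ))) :=
    h1.subset Ioi_subset_Ici_self (convex_Ioi 0)
  have h3 := h2.continuousOn isOpen_Ioi
  have h4 : ContinuousOn (fun τ => f (δ / 2 * (1 + 2 * τ))) (Ioi 0) := by
    refine (h3.sub ((H.cont_arg (μ := 2) (by norm_num)).mono Ioi_subset_Ici_self)).congr
      fun τ _ => ?_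
    simp
  have h5 : ContinuousAt (fun τ => f (δ / 2 * (1 + 2 * τ))) (1 / 2) :=
    h4.continuousAt (Ioi_mem_nhds (by norm_num))
  have h6 : ContinuousAt (fun x : ℝ => (x / (δ / 2) - 1) / 2) δ := by fun_prop
  have e0 : (δ / (δ / 2) - 1) / 2 = 1 / 2 := by field_simp; norm_num
  have h7 : ContinuousAt (fun x : ℝ => f (δ / 2 * (1 + 2 * ((x / (δ / 2) - 1) / 2)))) δ :=
    ContinuousAt.comp (g := fun τ => f (δ / 2 * (1 + 2 * τ))) (by rw [e0]; exact h5) h6
  refine (h7.congr (Eventually.of_forall fun x => ?_)).continuousWithinAt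
  change f (δ / 2 * (1 + 2 * ((x / (δ / 2) - 1) / 2))) = f x
  congr 1
  field_simp
  ring

theorem log_cont : ContinuousOn Real.log (Ioi 0) :=
  Real.continuousOn_log.mono fun x hx => by
    have : (0 : ℝ) < x := hx
    simp [this.ne']

theorem logden_cont {μ : ℝ} (hμ : 0 ≤ μ) :
    ContinuousOn (fun τ : ℝ => Real.log (1 + μ * τ)) (Ici 0) :=
  log_cont.comp (Continuous.continuousOn (by fun_prop)) fun _ hτ => mem_Ioi.2 (den_pos hμ hτ)

/-- the key duality -/
theorem Hyp.dual (H : Hyp hh f) (a : ℝ) : P f a ∨ Q hh a := by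
  by_cases hP : P f a
  · exact Or.inl hP
  refine Or.inr fun μ hμ => ?_
  have hc : ContinuousOn (fun δ => f δ + a * Real.log δ) (Ioi 0) :=
    H.cont_f.add (log_cont.const_smul a)
  obtain ⟨δ, hδ, m, r, hr, ht⟩ := touch (convex_Ioi 0) hc hP
  rw [interior_Ioi] at hδ
  have hδ0 : (0 : ℝ) < δ := hδ
  refine conv_of_loc (convex_Ici 0)
    ((H.cont_arg hμ.1).add ((logden_cont hμ.1).neg.const_smul a)) fun τ0 hτ0 => ?_
  have hτ0i := hτ0
  rw [interior_Ici] at hτ0
  have hτ00 : (0 : ℝ) < τ0 := hτ0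
  have hD := den_pos hμ.1 hτ00.le
  set l : ℝ := δ / (1 + μ * τ0) with hl
  have hl0 : 0 < l := by positivity
  have hlD : l * (1 + μ * τ0) = δ := by rw [hl]; field_simp
  obtain ⟨k, hk⟩ := sub_int (H.line μ hμ l hl0) hτ0i
  refine ⟨k - m * l * μ, r / (l * μ + 1), by have := hμ.1; positivity, fun z hz hzr => ?_⟩
  have hz0 : (0 : ℝ) ≤ z := hz
  have hk' := hk z hz
  have hnear : |l * (1 + μ * z) - δ| < r := by
    have e : l * (1 + μ * z) - δ = (l * μ) * (z - τ0) := by rw [← hlD]; ring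
    have hn : 0 ≤ l * μ := mul_nonneg hl0.le hμ.1
    rw [e, abs_mul, abs_of_nonneg hn]
    rw [lt_div_iff₀ (by positivity)] at hzr
    nlinarith [abs_nonneg (z - τ0)]
  obtain ⟨_, ht'⟩ := ht _ hnear
  have hDz := den_pos hμ.1 hz0
  have e1 : Real.log (l * (1 + μ * z)) = Real.log l + Real.log (1 + μ * z) :=
    Real.log_mul hl0.ne' hDz.ne'
  have e2 : Real.log δ = Real.log l + Real.log (1 + μ * τ0) := by
    rw [← hlD]
    exact Real.log_mul hl0.ne' hD.ne'
  rw [e1, e2] at ht'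
  rw [hlD] at hk'
  have e3 : l * (1 + μ * z) - δ = (l * μ) * (z - τ0) := by rw [← hlD]; ring
  rw [e3] at ht'
  nlinarith

theorem Pclosed : IsClosed {a | P f a} := closed_conv f Real.log

theorem Qclosed : IsClosed {a | Q hh a} := by
  unfold Q
  simp only [setOf_forall]
  exact isClosed_iInter fun μ => isClosed_iInter fun _ => closed_conv _ _

theorem exists_notP (f : ℝ → ℝ) : ∃ a, ¬ P f a := by
  have hpos : 0 < 2 * Real.log 2 - Real.log 3 := by
    have h1 : Real.log 3 < Real.log (2 ^ 2) := Real.log_lt_log (by norm_num) (by norm_num)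
    rw [Real.log_pow] at h1
    push_cast at h1
    linarith
  refine ⟨(f 1 + f 3 - 2 * f 2) / (2 * Real.log 2 - Real.log 3) + 1, fun hP => ?_⟩
  have h := mid hP (x := 1) (y := 3) (z := 2) (by norm_num) (by norm_num) (by norm_num)
  simp only [Real.log_one, mul_zero, add_zero] at h
  set a := (f 1 + f 3 - 2 * f 2) / (2 * Real.log 2 - Real.log 3) + 1 with ha
  have h2 : (a - 1) * (2 * Real.log 2 - Real.log 3) = f 1 + f 3 - 2 * f 2 := by
    rw [ha, add_sub_cancel_right]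
    field_simp
  nlinarith

theorem exists_notQ (hh : ℝ → ℝ) : ∃ a, ¬ Q hh a := by
  have hpos : 0 < 2 * Real.log 5 - (Real.log 3 + Real.log 7) := by
    have h1 : Real.log (3 * 7) < Real.log (5 ^ 2) := Real.log_lt_log (by norm_num) (by norm_num)
    rw [Real.log_pow, Real.log_mul (by norm_num) (by norm_num)] at h1
    push_cast at h1
    linarith
  set C : ℝ := hh (1 / √(1 + 2 * 1)) + hh (3 / √(1 + 2 * 3)) - 2 * hh (2 / √(1 + 2 * 2)) with hC
  refine ⟨-(C / (2 * Real.log 5 - (Real.log 3 + Real.log 7)) + 1), fun hQ => ?_⟩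
  have h := mid (hQ 2 ⟨by norm_num, le_rfl⟩) (x := 1) (y := 3) (z := 2) (by norm_num)
    (by norm_num) (by norm_num)
  have e1 : (1 + 2 * 1 : ℝ) = 3 := by norm_num
  have e2 : (1 + 2 * 3 : ℝ) = 7 := by norm_num
  have e3 : (1 + 2 * 2 : ℝ) = 5 := by norm_num
  rw [e1, e2, e3] at h hC
  set b := C / (2 * Real.log 5 - (Real.log 3 + Real.log 7)) with hb
  have h2 : b * (2 * Real.log 5 - (Real.log 3 + Real.log 7)) = C := by
    rw [hb]
    field_simp
  nlinarith

/-- the common parameter -/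
theorem Hyp.exists_a (H : Hyp hh f) : ∃ a, P f a ∧ Q hh a := by
  obtain ⟨a1, h1⟩ := exists_notP f
  obtain ⟨a2, h2⟩ := exists_notQ hh
  have n1 : (univ ∩ {a | P f a}).Nonempty :=
    ⟨a2, mem_univ _, (H.dual a2).resolve_right h2⟩
  have n2 : (univ ∩ {a | Q hh a}).Nonempty :=
    ⟨a1, mem_univ _, (H.dual a1).resolve_left h1⟩
  obtain ⟨a, _, ha, ha'⟩ := (isPreconnected_closed_iff.1 (isPreconnected_univ (α := ℝ))) _ _
    Pclosed Qclosed (fun a _ => H.dual a) n1 n2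
  exact ⟨a, ha, ha'⟩

end Pool.Agent.X91.VI
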