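import Pool.Agent.X91.VI.XY
import Pool.Agent.Y273.VI.Fin

/-! # Lines of rank one -/

set_option autoImplicit false

namespace Pool.Agent.X91.VI

open Set Filter Topology
open Pool.Agent.Y273.VI (RCp)

/-- the points of the lines -/
noncomputable def Fl (r : ℝ) (c : ℂ) (τ : ℝ) : ℂ × ℂ := ((r : ℂ) * (1 + τ * c), ((r * τ : ℝ) : ℂ))

theorem Fl_one {r : ℝ} {c : ℂ} (hc : ‖c‖ = 1) (τ : ℝ) :
    ‖(Fl r c τ).1‖ ^ 2 = r ^ 2 * (1 + 2 * c.re * τ + τ ^ 2) := by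
  have h1 : c.re * c.re + c.im * c.im = 1 := by
    rw [← Complex.normSq_apply, Complex.normSq_eq_norm_sq, hc]
    norm_num
  unfold Fl
  rw [← Complex.normSq_eq_norm_sq, Complex.normSq_apply]
  simp only [Complex.mul_re, Complex.mul_im, Complex.add_re, Complex.add_im, Complex.one_re,
    Complex.one_im, Complex.ofReal_re, Complex.ofReal_im]
  linear_combination r ^ 2 * τ ^ 2 * h1

theorem Fl_two {r : ℝ} {c : ℂ} (hr : 0 < r) (τ : ℝ) : ‖(Fl r c τ).2‖ = r * |τ| := by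
  unfold Fl
  rw [Complex.norm_real, Real.norm_eq_abs, abs_mul, abs_of_pos hr]

theorem Fl_det {r : ℝ} {c : ℂ} (hr : 0 < r) (hc : ‖c‖ = 1) (τ : ℝ) :
    ‖(Fl r c τ).1‖ ^ 2 - ‖(Fl r c τ).2‖ ^ 2 = r ^ 2 * (1 + 2 * c.re * τ) := by
  rw [Fl_one hc, Fl_two hr, mul_pow, sq_abs]
  ring

theorem Fl_pos {r : ℝ} {c : ℂ} (hr : 0 < r) (hc : ‖c‖ = 1) {τ : ℝ} (h : 0 < 1 + 2 * c.re * τ) :
    ‖(Fl r c τ).2‖ < ‖(Fl r c τ).1‖ := by
  have h1 := Fl_det hr hc τ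
  have h2 : 0 < r ^ 2 * (1 + 2 * c.re * τ) := by positivity
  have h3 : ‖(Fl r c τ).2‖ ^ 2 < ‖(Fl r c τ).1‖ ^ 2 := by linarith
  exact (sq_lt_sq₀ (norm_nonneg _) (norm_nonneg _)).1 h3

theorem Fl_conv {w : ℂ × ℂ → ℝ} (hR : RCp w) {r : ℝ} {c : ℂ} (hr : 0 < r) (hc : ‖c‖ = 1)
    {S : Set ℝ} (hS : Convex ℝ S) (h : ∀ τ ∈ S, 0 < 1 + 2 * c.re * τ) :
    ConvexOn ℝ S (fun τ => w (Fl r c τ)) := by
  refine ⟨hS, fun x hx y hy p q hp hq hpq => ?_⟩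
  have hp' : p = 1 - q := by linarith
  have e1 : Fl r c x + (((r * (y - x) : ℝ) : ℂ) * c, ((r * (y - x) : ℝ) : ℂ)) = Fl r c y := by
    unfold Fl
    rw [Prod.mk_add_mk]
    congr 1 <;> (push_cast; ring)
  have e2 : Fl r c x + q • (((r * (y - x) : ℝ) : ℂ) * c, ((r * (y - x) : ℝ) : ℂ))
      = Fl r c (p • x + q • y) := by
    unfold Fl
    rw [Prod.smul_mk, Prod.mk_add_mk]
    simp only [Complex.real_smul, smul_eq_mul]
    rw [hp']
    congr 1 <;> (push_cast; ring)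
  have key := hR (Fl r c x) (((r * (y - x) : ℝ) : ℂ) * c, ((r * (y - x) : ℝ) : ℂ))
    (by simp only [norm_mul, hc, mul_one]) (Fl_pos hr hc (h x hx))
    (by rw [e1]; exact Fl_pos hr hc (h y hy)) q hq (by linarith)
  rw [e1, e2] at key
  simp only [smul_eq_mul] at key ⊢
  rw [hp'] at key ⊢
  exact key

theorem wxy_Fl {hh f : ℝ → ℝ} {r : ℝ} {c : ℂ} (hr : 0 < r) (hc : ‖c‖ = 1) {τ : ℝ}
    (h : 0 < 1 + 2 * c.re * τ) : wxy hh f ‖(Fl r c τ).1‖ ‖(Fl r c τ).2‖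
      = hh (|τ| / √(1 + 2 * c.re * τ)) + f (r ^ 2 * (1 + 2 * c.re * τ)) := by
  unfold wxy
  rw [Fl_det hr hc, Fl_two hr]
  congr 2
  rw [Real.sqrt_mul (sq_nonneg _), Real.sqrt_sq hr.le]
  have := Real.sqrt_pos.2 h
  field_simp

theorem Hyp.of {hh f : ℝ → ℝ} (hR : RCp (fun F => wxy hh f ‖F.1‖ ‖F.2‖)) : Hyp hh f := by
  refine ⟨?_, ?_⟩
  · have h1 := Fl_conv hR (r := 1) (c := Complex.I) one_pos Complex.norm_I convex_univ
      (fun τ _ => by simp)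
    refine ⟨convex_univ, fun x _ y _ p q hp hq hpq => ?_⟩
    have h2 := h1.2 (mem_univ x) (mem_univ y) hp hq hpq
    simp only [smul_eq_mul] at h2 ⊢
    rw [wxy_Fl one_pos Complex.norm_I (by simp), wxy_Fl one_pos Complex.norm_I (by simp),
      wxy_Fl one_pos Complex.norm_I (by simp)] at h2
    simp only [Complex.I_re, mul_zero, zero_mul, add_zero, Real.sqrt_one, div_one, one_pow,
      mul_one] at h2
    have : q = 1 - p := by linarith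
    subst this
    linarith
  · intro μ hμ l hl
    set c : ℂ := ⟨μ / 2, √(1 - (μ / 2) ^ 2)⟩ with hc
    have hq : 0 ≤ 1 - (μ / 2) ^ 2 := by nlinarith [hμ.1, hμ.2]
    have hc1 : ‖c‖ = 1 := by
      rw [Complex.norm_def, Real.sqrt_eq_one, Complex.normSq_apply]
      simp only [hc]
      have := Real.mul_self_sqrt hq
      linarith
    have hre : 2 * c.re = μ := by simp only [hc]; ring
    have hs := Real.sqrt_pos.2 hl
    have hpos : ∀ τ ∈ Ici (0 : ℝ), 0 < 1 + 2 * c.re * τ := by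
      intro τ hτ
      rw [hre]
      exact den_pos hμ.1 hτ
    have h1 := Fl_conv hR (r := √l) hs hc1 (convex_Ici 0) hpos
    refine h1.congr fun τ hτ => ?_
    have hτ0 : (0 : ℝ) ≤ τ := hτ
    change wxy hh f ‖(Fl (√l) c τ).1‖ ‖(Fl (√l) c τ).2‖ = _
    rw [wxy_Fl hs hc1 (hpos τ hτ), hre, abs_of_nonneg hτ0, Real.sq_sqrt hl.le]

end Pool.Agent.X91.VI
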