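import Pool.Agent.X91.VI.Dual

/-! # Supporting functions -/

set_option autoImplicit false

namespace Pool.Agent.X91.VI

open Set Filter Topology

/-- the positive solution of `t ^ 2 = r t + 1` -/
noncomputable def Tt (r : ℝ) : ℝ := (r + √(r ^ 2 + 4)) / 2

theorem Tt_sq (r : ℝ) : Tt r ^ 2 = r * Tt r + 1 := by
  have h := Real.sq_sqrt (show (0 : ℝ) ≤ r ^ 2 + 4 by positivity)
  unfold Tt
  nlinarith

theorem Tt_pos (r : ℝ) : 0 < Tt r := by
  have h : |r| < √(r ^ 2 + 4) := by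
    rw [← Real.sqrt_sq_eq_abs]
    exact Real.sqrt_lt_sqrt (sq_nonneg _) (by linarith)
  unfold Tt
  have := neg_abs_le r
  linarith

theorem Tt_cont : Continuous Tt := by
  unfold Tt
  fun_prop

theorem Tt_mono {r s : ℝ} (hr : 0 ≤ r) (h : r ≤ s) : Tt r ≤ Tt s := by
  unfold Tt
  have : √(r ^ 2 + 4) ≤ √(s ^ 2 + 4) := Real.sqrt_le_sqrt (by nlinarith)
  linarith

/-- the extremal functions -/
noncomputable def Th (r : ℝ) : ℝ := r * Tt r + 2 * Real.log (Tt r)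

theorem Th_cont : Continuous Th := by
  unfold Th
  exact (continuous_id.mul Tt_cont).add
    ((Tt_cont.log fun r => (Tt_pos r).ne').const_smul (2 : ℝ))

theorem Th_ge (r : ℝ) {t : ℝ} (ht : 0 < t) :
    2 * r * t - t ^ 2 + 2 * Real.log t + 1 ≤ Th r := by
  have hT := Tt_pos r
  have hT2 := Tt_sq r
  have h1 : Real.log (t / Tt r) ≤ t / Tt r - 1 := Real.log_le_sub_one_of_pos (by positivity)
  rw [Real.log_div ht.ne' hT.ne'] at h1
  have h2 : t / Tt r = t * (Tt r - r) := by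
    rw [div_eq_iff hT.ne']
    nlinarith
  rw [h2] at h1
  unfold Th
  nlinarith [sq_nonneg (t - Tt r)]

theorem Th_eq (r : ℝ) : Th r = 2 * r * Tt r - Tt r ^ 2 + 2 * Real.log (Tt r) + 1 := by
  rw [Tt_sq]
  unfold Th
  ring

/-- the parameter on the line -/
noncomputable def tau (μ ω : ℝ) : ℝ := ω * Tt (μ * ω)

theorem tau_den (μ ω : ℝ) : 1 + μ * tau μ ω = Tt (μ * ω) ^ 2 := by
  rw [Tt_sq]
  unfold tau
  ring

theorem tau_sqrt (μ ω : ℝ) : √(1 + μ * tau μ ω) = Tt (μ * ω) := by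
  rw [tau_den, Real.sqrt_sq (Tt_pos _).le]

theorem tau_arg (μ ω : ℝ) : tau μ ω / √(1 + μ * tau μ ω) = ω := by
  rw [tau_sqrt]
  unfold tau
  exact mul_div_cancel_right₀ _ (Tt_pos _).ne'

theorem tau_log (μ ω : ℝ) : Real.log (1 + μ * tau μ ω) = 2 * Real.log (Tt (μ * ω)) := by
  rw [tau_den, Real.log_pow]
  norm_num

theorem tau_nonneg {μ ω : ℝ} (hω : 0 ≤ ω) : 0 ≤ tau μ ω := mul_nonneg hω (Tt_pos _).le

theorem tau_lt {μ ω1 ω2 : ℝ} (hμ : 0 ≤ μ) (h1 : 0 ≤ ω1) (h : ω1 < ω2) :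
    tau μ ω1 < tau μ ω2 := by
  unfold tau
  have h2 : Tt (μ * ω1) ≤ Tt (μ * ω2) :=
    Tt_mono (mul_nonneg hμ h1) (mul_le_mul_of_nonneg_left h.le hμ)
  have h3 := Tt_pos (μ * ω2)
  nlinarith

variable {hh f : ℝ → ℝ}

/-- the difference to the extremal function -/
noncomputable def E (hh : ℝ → ℝ) (a μ ω : ℝ) : ℝ := hh ω - a * Th (μ * ω)

/-- the convex function on the line -/
noncomputable def J (hh : ℝ → ℝ) (a μ τ : ℝ) : ℝ :=
  hh (τ / √(1 + μ * τ)) + a * (-Real.log (1 + μ * τ)) - a * μ * τ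

theorem J_conv {a : ℝ} (hQ : Q hh a) {μ : ℝ} (hμ : μ ∈ Icc (0 : ℝ) 2) :
    ConvexOn ℝ (Ici 0) (J hh a μ) := by
  have h := hQ μ hμ
  refine ⟨convex_Ici 0, fun x hx y hy p q hp hq hpq => ?_⟩
  have h1 := h.2 hx hy hp hq hpq
  simp only [smul_eq_mul] at h1 ⊢
  unfold J
  nlinarith

theorem J_tau (hh : ℝ → ℝ) (a μ ω : ℝ) : J hh a μ (tau μ ω) = E hh a μ ω := by
  unfold J
  rw [tau_arg, tau_log]
  unfold E Th tau
  ring

theorem E_alt {a : ℝ} (hQ : Q hh a) {μ : ℝ} (hμ : μ ∈ Icc (0 : ℝ) 2) {ω0 : ℝ} :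
    (∀ ω, 0 ≤ ω → ω < ω0 → E hh a μ ω0 ≤ E hh a μ ω) ∨
      (∀ ω, ω0 < ω → E hh a μ ω0 ≤ E hh a μ ω) := by
  by_contra hne
  push Not at hne
  obtain ⟨⟨ω1, h1, h2, h3⟩, ⟨ω2, h4, h5⟩⟩ := hne
  have t1 := tau_lt hμ.1 h1 h2
  have t2 := tau_lt hμ.1 (h1.trans h2.le) h4
  have h6 := (J_conv hQ hμ).le_max_of_mem_Icc (x := tau μ ω1) (y := tau μ ω2) (z := tau μ ω0)
    (mem_Ici.2 (tau_nonneg h1)) (mem_Ici.2 (tau_nonneg (h1.trans (h2.le.trans h4.le))))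
    ⟨t1.le, t2.le⟩
  rw [J_tau, J_tau, J_tau] at h6
  rcases le_max_iff.1 h6 with h | h <;> linarith

theorem E_cont (hh : ℝ → ℝ) (a ω : ℝ) : Continuous (fun μ => E hh a μ ω) := by
  unfold E
  exact continuous_const.sub ((Th_cont.comp (continuous_mul_const ω)).const_smul a)

theorem K_tau (ω : ℝ) : Tt (2 * ω) ^ 2 = 1 + 2 * tau 2 ω := (tau_den 2 ω).symm

/-- support for positive `a` -/
theorem sup_pos (H : Hyp hh f) {a : ℝ} (hQ : Q hh a) {ω0 : ℝ} (h0 : 0 ≤ ω0) :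
    ∃ μ ∈ Icc (0 : ℝ) 2, ∃ m, 0 ≤ m ∧ ∀ ω, 0 ≤ ω →
      hh ω0 + a * (Th (μ * ω) - Th (μ * ω0)) + m * (Tt (2 * ω) ^ 2 - Tt (2 * ω0) ^ 2) ≤ hh ω := by
  have h2m : (2 : ℝ) ∈ Icc (0 : ℝ) 2 := ⟨by norm_num, le_rfl⟩
  have h0m : (0 : ℝ) ∈ Icc (0 : ℝ) 2 := ⟨le_rfl, by norm_num⟩
  by_cases hA : ∀ ω, 0 ≤ ω → ω < ω0 → E hh a 2 ω0 ≤ E hh a 2 ω
  · have c1 : IsClosed {μ | ∀ ω, 0 ≤ ω → ω < ω0 → E hh a μ ω0 ≤ E hh a μ ω} := by
      simp only [setOf_forall]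
      exact isClosed_iInter fun ω => isClosed_iInter fun _ => isClosed_iInter fun _ =>
        isClosed_le (E_cont hh a ω0) (E_cont hh a ω)
    have c2 : IsClosed {μ | ∀ ω, ω0 < ω → E hh a μ ω0 ≤ E hh a μ ω} := by
      simp only [setOf_forall]
      exact isClosed_iInter fun ω => isClosed_iInter fun _ =>
        isClosed_le (E_cont hh a ω0) (E_cont hh a ω)
    have n1 : (Icc (0 : ℝ) 2 ∩ {μ | ∀ ω, 0 ≤ ω → ω < ω0 → E hh a μ ω0 ≤ E hh a μ ω}).Nonempty :=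
      ⟨2, h2m, hA⟩
    have n2 : (Icc (0 : ℝ) 2 ∩ {μ | ∀ ω, ω0 < ω → E hh a μ ω0 ≤ E hh a μ ω}).Nonempty := by
      refine ⟨0, h0m, fun ω hω => ?_⟩
      unfold E
      rw [zero_mul, zero_mul]
      have := H.mono h0 hω.le
      linarith
    obtain ⟨μ, hμ, hm1, hm2⟩ := (isPreconnected_closed_iff.1 (isPreconnected_Icc
      (a := (0 : ℝ)) (b := 2))) _ _ c1 c2 (fun μ hμ => E_alt hQ hμ) n1 n2
    refine ⟨μ, hμ, 0, le_rfl, fun ω hω => ?_⟩
    have key : E hh a μ ω0 ≤ E hh a μ ω := by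
      rcases lt_trichotomy ω ω0 with h | h | h
      · exact hm1 ω hω h
      · rw [h]
      · exact hm2 ω h
    unfold E at key
    linarith
  · push Not at hA
    obtain ⟨ω1, g1, g2, g3⟩ := hA
    have hτ1 := tau_lt (μ := 2) (by norm_num) g1 g2
    have hτ0 : 0 < tau 2 ω0 := (tau_nonneg g1).trans_lt hτ1
    obtain ⟨k, hk⟩ := sub_int (J_conv hQ h2m) (x := tau 2 ω0) (by
      rw [interior_Ici]; exact hτ0)
    have k1 := hk (tau 2 ω1) (mem_Ici.2 (tau_nonneg g1))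
    rw [J_tau, J_tau] at k1
    have hk0 : 0 ≤ k := by
      by_contra hneg
      rw [not_le] at hneg
      nlinarith
    refine ⟨2, h2m, k / 2, by positivity, fun ω hω => ?_⟩
    have k2 := hk (tau 2 ω) (mem_Ici.2 (tau_nonneg hω))
    rw [J_tau, J_tau] at k2
    rw [K_tau, K_tau]
    unfold E at k2
    nlinarith

/-- support for `a ≤ 0` -/
theorem sup_neg (H : Hyp hh f) {c : ℝ} (hc : 0 ≤ c) (hQ : Q hh (-c)) {ω0 : ℝ} (h0 : 0 ≤ ω0) :
    ∃ m, 0 ≤ m ∧ ∀ ω, 0 ≤ ω →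
      hh ω0 + c * ((Tt (2 * ω) ^ 2 - Real.log (Tt (2 * ω) ^ 2))
        - (Tt (2 * ω0) ^ 2 - Real.log (Tt (2 * ω0) ^ 2)))
        + m * (Tt (2 * ω) ^ 2 - Tt (2 * ω0) ^ 2) ≤ hh ω := by
  have h2m : (2 : ℝ) ∈ Icc (0 : ℝ) 2 := ⟨by norm_num, le_rfl⟩
  set D : ℝ → ℝ := fun τ => hh (τ / √(1 + 2 * τ)) + -c * (-Real.log (1 + 2 * τ))
    - c * (1 + 2 * τ) with hD
  have hDc : ConvexOn ℝ (Ici 0) D := by
    have h := hQ 2 h2m
    refine ⟨convex_Ici 0, fun x hx y hy p q hp hq hpq => ?_⟩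
    have h1 := h.2 hx hy hp hq hpq
    simp only [smul_eq_mul] at h1 ⊢
    simp only [hD]
    have hq' : q = 1 - p := by linarith
    subst hq'
    nlinarith
  have hDe : ∀ ω, D (tau 2 ω) = hh ω + c * Real.log (Tt (2 * ω) ^ 2) - c * Tt (2 * ω) ^ 2 := by
    intro ω
    simp only [hD]
    rw [tau_arg, tau_den]
    ring
  have hD0 : ∀ τ, 0 ≤ τ → D 0 - c * (4 * τ ^ 2) ≤ D τ := by
    intro τ hτ
    have h1 : hh 0 ≤ hh (τ / √(1 + 2 * τ)) :=
      H.mono le_rfl (div_nonneg hτ (Real.sqrt_nonneg _))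
    have h2 : 1 - (1 + 2 * τ)⁻¹ ≤ Real.log (1 + 2 * τ) :=
      Real.one_sub_inv_le_log_of_pos (by linarith)
    have h3 : 2 * τ - 4 * τ ^ 2 ≤ 1 - (1 + 2 * τ)⁻¹ := by
      have h4 : 1 - (1 + 2 * τ)⁻¹ = 2 * τ / (1 + 2 * τ) := by
        field_simp
        ring
      rw [h4, le_div_iff₀ (by linarith)]
      nlinarith [pow_nonneg hτ 3]
    have h5 := mul_le_mul_of_nonneg_left (h3.trans h2) hc
    simp only [hD, mul_zero, add_zero, Real.sqrt_one, div_one, Real.log_one, neg_zero]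
    nlinarith
  have hmin : ∀ τ, 0 ≤ τ → D 0 ≤ D τ := by
    intro τ hτ
    rcases eq_or_lt_of_le hτ with h | h
    · rw [← h]
    by_contra hlt
    rw [not_le] at hlt
    set g : ℝ := D 0 - D τ with hg
    have hg0 : 0 < g := by linarith
    set ε : ℝ := min 1 (g / (4 * c * τ ^ 2 + 1)) / 2 with hε
    have hden : 0 < 4 * c * τ ^ 2 + 1 := by positivity
    have hm0 : 0 < min 1 (g / (4 * c * τ ^ 2 + 1)) := lt_min one_pos (by positivity)
    have hε0 : 0 < ε := by positivity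
    have hε1 : ε ≤ 1 := by
      have := min_le_left 1 (g / (4 * c * τ ^ 2 + 1))
      rw [hε]; linarith
    have hε2 : ε < g / (4 * c * τ ^ 2 + 1) := by
      have := min_le_right 1 (g / (4 * c * τ ^ 2 + 1))
      rw [hε]; linarith
    rw [lt_div_iff₀ hden] at hε2
    have h1 := hDc.2 (x := 0) (y := τ) (by simp) (mem_Ici.2 hτ) (sub_nonneg.2 hε1) hε0.le
      (by ring)
    simp only [smul_eq_mul, mul_zero, zero_add] at h1
    have h2 := hD0 (ε * τ) (by positivity)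
    have h3 : ε * (D τ - D 0) ≥ -(c * (4 * (ε * τ) ^ 2)) := by nlinarith
    have h4 : ε * g ≤ ε * (ε * (4 * c * τ ^ 2)) := by
      have : D τ - D 0 = -g := by rw [hg]; ring
      rw [this] at h3
      nlinarith
    have h5 : g ≤ ε * (4 * c * τ ^ 2) := le_of_mul_le_mul_left h4 hε0
    nlinarith
  rcases eq_or_lt_of_le (tau_nonneg (μ := 2) h0) with h | h
  · refine ⟨0, le_rfl, fun ω hω => ?_⟩
    have k1 := hmin (tau 2 ω) (tau_nonneg hω)
    have k0 := hDe ω0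
    rw [← h] at k0
    rw [k0, hDe] at k1
    nlinarith
  · obtain ⟨k, hk⟩ := sub_int hDc (x := tau 2 ω0) (by rw [interior_Ici]; exact h)
    have k0 := hk 0 (by simp)
    have k1 := hmin (tau 2 ω0) h.le
    have hk0 : 0 ≤ k := by
      by_contra hneg
      rw [not_le] at hneg
      nlinarith
    refine ⟨k / 2, by positivity, fun ω hω => ?_⟩
    have k2 := hk (tau 2 ω) (mem_Ici.2 (tau_nonneg hω))
    rw [hDe, hDe] at k2
    have e1 := K_tau ω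
    have e2 := K_tau ω0
    nlinarith

end Pool.Agent.X91.VI
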