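import Pool.Agent.X91.VI.Supp

/-! # The support in the variables `x = |F⁺|`, `y = |F⁻|` -/

set_option autoImplicit false

namespace Pool.Agent.X91.VI

open Set Filter Topology

/-- the energy -/
noncomputable def wxy (hh f : ℝ → ℝ) (x y : ℝ) : ℝ :=
  hh (y / √(x ^ 2 - y ^ 2)) + f (x ^ 2 - y ^ 2)

/-- the special energy `s / v + 2 log v` -/
noncomputable def Mg (x y : ℝ) : ℝ := 1 / (x - y) * (x + y) + 2 * Real.log (x - y)

theorem del_pos {x y : ℝ} (hy : 0 ≤ y) (h : y < x) : 0 < x ^ 2 - y ^ 2 := by nlinarith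

theorem Tt_xy {x y : ℝ} (hy : 0 ≤ y) (h : y < x) :
    Tt (2 * (y / √(x ^ 2 - y ^ 2))) = (x + y) / √(x ^ 2 - y ^ 2) := by
  have hd := del_pos hy h
  have hs := Real.sqrt_pos.2 hd
  have hx : 0 < x := by linarith
  have e : (2 * (y / √(x ^ 2 - y ^ 2))) ^ 2 + 4 = (2 * (x / √(x ^ 2 - y ^ 2))) ^ 2 := by
    rw [mul_pow, mul_pow, div_pow, div_pow, Real.sq_sqrt hd.le]
    field_simp
    ring
  unfold Tt
  rw [e, Real.sqrt_sq (by positivity)]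
  ring

theorem K_xy {x y : ℝ} (hy : 0 ≤ y) (h : y < x) :
    Tt (2 * (y / √(x ^ 2 - y ^ 2))) ^ 2 = (x + y) ^ 2 / (x ^ 2 - y ^ 2) := by
  rw [Tt_xy hy h, div_pow, Real.sq_sqrt (del_pos hy h).le]

theorem K_low {x y x0 y0 : ℝ} (hy : 0 ≤ y) (h : y < x) (hy0 : 0 ≤ y0) (h0 : y0 < x0) :
    2 * ((x0 + y0) / (x0 ^ 2 - y0 ^ 2)) * ((x + y) - (x0 + y0))
      - ((x0 + y0) / (x0 ^ 2 - y0 ^ 2)) ^ 2 * ((x ^ 2 - y ^ 2) - (x0 ^ 2 - y0 ^ 2))
      ≤ (x + y) ^ 2 / (x ^ 2 - y ^ 2) - (x0 + y0) ^ 2 / (x0 ^ 2 - y0 ^ 2) := by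
  have hd := del_pos hy h
  have hd0 := del_pos hy0 h0
  set δ := x ^ 2 - y ^ 2
  set δ0 := x0 ^ 2 - y0 ^ 2
  set s := x + y
  set s0 := x0 + y0
  set k := s0 / δ0 with hk
  have hs0 : s0 = k * δ0 := by rw [hk]; field_simp
  have e1 : s0 ^ 2 / δ0 = k * s0 := by rw [hk]; field_simp
  have e2 : 2 * k * s - k ^ 2 * δ ≤ s ^ 2 / δ := by
    rw [le_div_iff₀ hd]
    nlinarith [sq_nonneg (s - k * δ)]
  rw [e1]
  nlinarith

theorem Th_low {x y x0 y0 μ : ℝ} (hy : 0 ≤ y) (h : y < x) (hy0 : 0 ≤ y0) (h0 : y0 < x0) :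
    2 * μ * (Tt (μ * (y0 / √(x0 ^ 2 - y0 ^ 2))) / √(x0 ^ 2 - y0 ^ 2)) * (y - y0)
      - (Tt (μ * (y0 / √(x0 ^ 2 - y0 ^ 2))) / √(x0 ^ 2 - y0 ^ 2)) ^ 2
        * ((x ^ 2 - y ^ 2) - (x0 ^ 2 - y0 ^ 2))
      + (Real.log (x ^ 2 - y ^ 2) - Real.log (x0 ^ 2 - y0 ^ 2))
      ≤ Th (μ * (y / √(x ^ 2 - y ^ 2))) - Th (μ * (y0 / √(x0 ^ 2 - y0 ^ 2))) := by
  have hd := del_pos hy h
  have hd0 := del_pos hy0 h0
  set δ := x ^ 2 - y ^ 2
  set δ0 := x0 ^ 2 - y0 ^ 2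
  set r0 := μ * (y0 / √δ0) with hr0
  set T := Tt r0 with hT
  have hTp : 0 < T := Tt_pos r0
  have q := Real.sqrt_pos.2 hd
  have q0 := Real.sqrt_pos.2 hd0
  set u := T / √δ0 with hu
  have hu0 : 0 < u := by positivity
  have h1 := Th_ge (μ * (y / √δ)) (t := u * √δ) (by positivity)
  have h2 := Th_eq r0
  have e1 : 2 * (μ * (y / √δ)) * (u * √δ) = 2 * μ * u * y := by field_simp
  have e2 : (u * √δ) ^ 2 = u ^ 2 * δ := by rw [mul_pow, Real.sq_sqrt hd.le]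
  have e3 : Real.log (u * √δ) = Real.log u + Real.log δ / 2 := by
    rw [Real.log_mul hu0.ne' q.ne', Real.log_sqrt hd.le]
  have e4 : T = u * √δ0 := by rw [hu]; field_simp
  have e5 : 2 * r0 * T = 2 * μ * u * y0 := by
    rw [hr0, e4]
    field_simp
  have e6 : T ^ 2 = u ^ 2 * δ0 := by rw [e4, mul_pow, Real.sq_sqrt hd0.le]
  have e7 : Real.log T = Real.log u + Real.log δ0 / 2 := by
    rw [e4, Real.log_mul hu0.ne' q0.ne', Real.log_sqrt hd0.le]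
  rw [e1, e2, e3] at h1
  rw [← hT, e5, e6, e7] at h2
  rw [h2]
  linarith

variable {hh f : ℝ → ℝ}

/-- the support -/
theorem support (H : Hyp hh f) {x0 y0 : ℝ} (hy0 : 0 ≤ y0) (h0 : y0 < x0) :
    ∃ α γ β c : ℝ, 0 ≤ α ∧ 0 ≤ γ ∧ 0 ≤ c ∧ ∀ x y, 0 ≤ y → y < x →
      wxy hh f x0 y0 + (α * ((x + y) - (x0 + y0)) + γ * (y - y0)
        + β * ((x ^ 2 - y ^ 2) - (x0 ^ 2 - y0 ^ 2))) + c * (Mg x y - Mg x0 y0) ≤ wxy hh f x y := by
  obtain ⟨a, hP, hQ⟩ := H.exists_a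
  have hd0 := del_pos hy0 h0
  have hω0 : 0 ≤ y0 / √(x0 ^ 2 - y0 ^ 2) := div_nonneg hy0 (Real.sqrt_nonneg _)
  obtain ⟨β, hβ⟩ := sub_int hP (x := x0 ^ 2 - y0 ^ 2) (by rw [interior_Ioi]; exact hd0)
  have hk0 : 0 ≤ (x0 + y0) / (x0 ^ 2 - y0 ^ 2) := div_nonneg (by linarith) hd0.le
  rcases le_or_gt a 0 with ha | ha
  · obtain ⟨m, hm, hs⟩ := sup_neg H (c := -a) (by linarith) (by rw [neg_neg]; exact hQ) hω0
    set k := (x0 + y0) / (x0 ^ 2 - y0 ^ 2) with hk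
    refine ⟨m * (2 * k), 0, β - m * k ^ 2, -a, by positivity, le_rfl, by linarith,
      fun x y hy h => ?_⟩
    have hd := del_pos hy h
    have h1 := hβ (x ^ 2 - y ^ 2) hd
    have h2 := hs (y / √(x ^ 2 - y ^ 2)) (div_nonneg hy (Real.sqrt_nonneg _))
    rw [K_xy hy h, K_xy hy0 h0] at h2
    have h3 := mul_le_mul_of_nonneg_left (K_low hy h hy0 h0) hm
    rw [← hk] at h3
    have e : ∀ x y : ℝ, 0 ≤ y → y < x → Mg x y = (x + y) ^ 2 / (x ^ 2 - y ^ 2)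
        - Real.log ((x + y) ^ 2 / (x ^ 2 - y ^ 2)) + Real.log (x ^ 2 - y ^ 2) := by
      intro x y hy h
      have hv : 0 < x - y := by linarith
      have hs : 0 < x + y := by linarith
      have e1 : x ^ 2 - y ^ 2 = (x + y) * (x - y) := by ring
      have e2 : (x + y) ^ 2 / ((x + y) * (x - y)) = (x + y) / (x - y) := by
        field_simp
      unfold Mg
      rw [e1, e2, Real.log_mul hs.ne' hv.ne', Real.log_div hs.ne' hv.ne']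
      ring
    rw [e x y hy h, e x0 y0 hy0 h0]
    unfold wxy
    nlinarith
  · obtain ⟨μ, hμ, m, hm, hs⟩ := sup_pos H hQ hω0
    set k := (x0 + y0) / (x0 ^ 2 - y0 ^ 2) with hk
    set u := Tt (μ * (y0 / √(x0 ^ 2 - y0 ^ 2))) / √(x0 ^ 2 - y0 ^ 2) with hu
    have hu0 : 0 ≤ u := div_nonneg (Tt_pos _).le (Real.sqrt_nonneg _)
    have hμ0 := hμ.1
    refine ⟨m * (2 * k), a * (2 * μ * u), β - m * k ^ 2 - a * u ^ 2, 0, by positivity,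
      by positivity, le_rfl, fun x y hy h => ?_⟩
    have hd := del_pos hy h
    have h1 := hβ (x ^ 2 - y ^ 2) hd
    have h2 := hs (y / √(x ^ 2 - y ^ 2)) (div_nonneg hy (Real.sqrt_nonneg _))
    rw [K_xy hy h, K_xy hy0 h0] at h2
    have h3 := mul_le_mul_of_nonneg_left (K_low hy h hy0 h0) hm
    have h4 := mul_le_mul_of_nonneg_left (Th_low (μ := μ) hy h hy0 h0) ha.le
    rw [← hk] at h3
    rw [← hu] at h4
    unfold wxy
    nlinarith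

end Pool.Agent.X91.VI
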